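import Pool.Agent.N303.LS.Stm3
import Pool.Agent.TH274.Wig.Gauss

/-!
# Project LM (helper303), part HRH: the maximal functions for data in Sobolev spaces
By helper322.
-/

set_option autoImplicit false

namespace Pool.Agent.N322.LS

open MeasureTheory Set
open scoped ENNReal FourierTransform SchwartzMap
open Pool.Agent.N303.LS

/-- multiplication of the Fourier transform by a function of temperate growth -/
lemma mult' {d : ℕ} (m : Pool.Agent.N303.LS.E d → ℂ) (hm : m.HasTemperateGrowth)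
    (g : 𝓢(Pool.Agent.N303.LS.E d, ℂ)) :
    ∃ h : 𝓢(Pool.Agent.N303.LS.E d, ℂ),
      ∀ ξ, 𝓕 (h : Pool.Agent.N303.LS.E d → ℂ) ξ = m ξ * 𝓕 (g : Pool.Agent.N303.LS.E d → ℂ) ξ := by
  refine ⟨𝓕⁻ (SchwartzMap.smulLeftCLM ℂ m (𝓕 g)), ?_⟩
  intro ξ
  rw [← SchwartzMap.fourier_coe, FourierTransform.fourier_fourierInv_eq,
    SchwartzMap.smulLeftCLM_apply_apply hm, SchwartzMap.fourier_coe, smul_eq_mul]

/-- the heat flow -/
lemma heat {d : ℕ} (G : 𝓢(Pool.Agent.N303.LS.E d, ℂ)) :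
    ∃ h : ℝ → 𝓢(Pool.Agent.N303.LS.E d, ℂ), ∀ v : ℝ, 0 < v → ∀ ξ,
      𝓕 (h v : Pool.Agent.N303.LS.E d → ℂ) ξ =
        ((Real.exp (-(4 * Real.pi ^ 2 * v * ‖ξ‖ ^ 2)) : ℝ) : ℂ) *
          𝓕 (G : Pool.Agent.N303.LS.E d → ℂ) ξ := by
  classical
  have key : ∀ v : ℝ, ∃ h : 𝓢(Pool.Agent.N303.LS.E d, ℂ), 0 < v → ∀ ξ,
      𝓕 (h : Pool.Agent.N303.LS.E d → ℂ) ξ =
        ((Real.exp (-(4 * Real.pi ^ 2 * v * ‖ξ‖ ^ 2)) : ℝ) : ℂ) *
          𝓕 (G : Pool.Agent.N303.LS.E d → ℂ) ξ := by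
    intro v
    by_cases hv : 0 < v
    · have ha : 0 < (((4 * Real.pi ^ 2 * v : ℝ) : ℂ)).re := by
        rw [Complex.ofReal_re]; positivity
      obtain ⟨h, hh⟩ := mult' (Pool.Agent.TH274.Wig.gauss d _ ha : Pool.Agent.N303.LS.E d → ℂ)
        (SchwartzMap.hasTemperateGrowth _) G
      refine ⟨h, fun _ ξ => ?_⟩
      rw [hh ξ, Pool.Agent.TH274.Wig.gauss_apply]
      congr 1
      rw [Complex.ofReal_exp]
      congr 1
      push_cast
      ring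
    · exact ⟨0, fun h => absurd h hv⟩
  choose h hh using key
  exact ⟨h, hh⟩

lemma expo (r : ℝ) : ∃ K : ℝ, 0 < K ∧ ∀ v : ℝ, 0 < v →
    (1 + v) ^ r * Real.exp (-v) ≤ K * Real.exp (-(1 / 2) * v) := by
  obtain ⟨n, hn⟩ := exists_nat_ge r
  refine ⟨2 ^ n * n.factorial * Real.exp (1 / 2), by positivity, fun v hv => ?_⟩
  have h1 : (1 + v) ^ r ≤ (1 + v) ^ n := by
    rw [← Real.rpow_natCast]
    exact Real.rpow_le_rpow_of_exponent_le (by linarith) hn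
  have h2 : ((1 + v) / 2) ^ n / n.factorial ≤ Real.exp ((1 + v) / 2) :=
    Real.pow_div_factorial_le_exp _ (by linarith) n
  have h3 : (1 + v) ^ n ≤ 2 ^ n * n.factorial * Real.exp ((1 + v) / 2) := by
    rw [div_pow, div_div, div_le_iff₀ (by positivity)] at h2
    linarith
  have h4 : Real.exp ((1 + v) / 2) * Real.exp (-v) =
      Real.exp (1 / 2) * Real.exp (-(1 / 2) * v) := by
    rw [← Real.exp_add, ← Real.exp_add]
    congr 1
    ring
  calc (1 + v) ^ r * Real.exp (-v)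
      ≤ (2 ^ n * n.factorial * Real.exp ((1 + v) / 2)) * Real.exp (-v) :=
        mul_le_mul_of_nonneg_right (h1.trans h3) (Real.exp_pos _).le
    _ = 2 ^ n * n.factorial * (Real.exp ((1 + v) / 2) * Real.exp (-v)) := by ring
    _ = _ := by rw [h4]; ring

lemma gam {b a : ℝ} (hb : 0 < b) (ha : 0 < a) :
    ∫⁻ v in Ioi (0 : ℝ), ENNReal.ofReal (v ^ (a - 1) * Real.exp (-b * v)) < ⊤ := by
  have h := integrableOn_rpow_mul_exp_neg_mul_rpow (p := 1) (s := a - 1) (b := b) (by linarith)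
    one_pos hb
  simp only [Real.rpow_one] at h
  exact h.lintegral_lt_top

lemma root {d : ℕ} {v : ℝ} (hv : 0 < v) :
    (1 + d * v⁻¹) ^ ((1 : ℝ) / 2) ≤ (1 + d) * (1 + v ^ (-(1 / 2) : ℝ)) := by
  rw [← Real.sqrt_eq_rpow]
  have hy : 0 < v ^ (-(1 / 2) : ℝ) := Real.rpow_pos_of_pos hv _
  have hy2 : v⁻¹ = v ^ (-(1 / 2) : ℝ) * v ^ (-(1 / 2) : ℝ) := by
    rw [← Real.rpow_add hv]
    norm_num
    exact (Real.rpow_neg_one v).symm
  rw [hy2]
  set y := v ^ (-(1 / 2) : ℝ) with hydef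
  have hd : (0 : ℝ) ≤ d := Nat.cast_nonneg d
  rw [Real.sqrt_le_iff]
  refine ⟨by positivity, ?_⟩
  have h1 : 0 ≤ (d : ℝ) * y := by positivity
  have h2 : 0 ≤ (d : ℝ) * (y * y) := by positivity
  have h3 : 0 ≤ (d : ℝ) * d := by positivity
  have h4 : 0 ≤ (d : ℝ) * d * y := by positivity
  have h5 : 0 ≤ (d : ℝ) * d * (y * y) := by positivity
  nlinarith

lemma key (d M : ℕ) (q σ κ c : ℝ) (hq : 2 ≤ q) (hσ : 0 < σ) (hκ : κ + 1 / 2 < σ * q) (hc : 0 < c) :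
    ∃ D : ℝ, 0 < D ∧ ∀ (X : Type) [Fintype X] (b : X → ℝ → ℝ≥0∞) (P : ℝ≥0∞),
      (∀ ε, AEMeasurable (b ε) (volume.restrict (Ioi (0 : ℝ)))) →
      (∀ v : ℝ, 0 < v → ∑ ε, b ε v ^ q ≤ P * ENNReal.ofReal ((c * (1 + v) ^ M) ^ (q / 2) *
        (1 + d * v⁻¹) ^ ((1 : ℝ) / 2) * v ^ (-κ))) →
      ∑ ε, (∫⁻ v in Ioi (0 : ℝ),
        ENNReal.ofReal (Real.exp (-v) * v ^ (σ - 1) / Real.Gamma σ) * b ε v) ^ q ≤
          ENNReal.ofReal D * P := by
  have hq0 : 0 < q := by linarith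
  have hq1 : 0 < q - 1 := by linarith
  obtain ⟨q', hq'⟩ : ∃ q' : ℝ, q' = q / (q - 1) := ⟨_, rfl⟩
  have hq'0 : 0 < q' := by rw [hq']; positivity
  have hinv : q'⁻¹ + q⁻¹ = 1 := by
    rw [hq']; field_simp; ring
  have hconj : q'.HolderConjugate q := by
    rw [Real.holderConjugate_iff]
    refine ⟨?_, hinv⟩
    rw [hq', lt_div_iff₀ hq1]; linarith
  obtain ⟨β, hβ⟩ : ∃ β : ℝ, β = ((κ + 1 / 2 - σ) + σ * (q - 1)) / (2 * q) := ⟨_, rfl⟩
  have hβq : β * q = ((κ + 1 / 2 - σ) + σ * (q - 1)) / 2 := by rw [hβ]; field_simp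
  have hAB : κ + 1 / 2 - σ < σ * (q - 1) := by nlinarith
  have hβq' : β * q' < σ := by
    have : β * q' = β * q / (q - 1) := by rw [hq']; ring
    rw [this, div_lt_iff₀ hq1, hβq]; linarith
  have hβ2 : 1 / 2 < σ + β * q - κ := by rw [hβq]; linarith
  have hΓ : 0 < Real.Gamma σ := Real.Gamma_pos_of_pos hσ
  obtain ⟨K, hK0, hK⟩ := expo ((M : ℝ) * (q / 2))
  obtain ⟨w, hw⟩ : ∃ w : ℝ → ℝ, w = fun v => Real.exp (-v) * v ^ (σ - 1) / Real.Gamma σ := ⟨_, rfl⟩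
  have hw0 : ∀ v : ℝ, 0 < v → 0 < w v := by
    intro v hv
    rw [hw]
    have := Real.rpow_pos_of_pos hv (σ - 1)
    positivity
  have hwm : Measurable w := by
    rw [hw]; fun_prop
  obtain ⟨F, hF⟩ : ∃ F : ℝ → ℝ, F = fun v => w v ^ (q'⁻¹) * v ^ (-β) := ⟨_, rfl⟩
  obtain ⟨Gf, hG⟩ : ∃ Gf : ℝ → ℝ, Gf = fun v => w v ^ (q⁻¹) * v ^ β := ⟨_, rfl⟩
  obtain ⟨Ψ, hΨ⟩ : ∃ Ψ : ℝ → ℝ, Ψ = fun v => (c * (1 + v) ^ M) ^ (q / 2) *
        (1 + d * v⁻¹) ^ ((1 : ℝ) / 2) * v ^ (-κ) := ⟨_, rfl⟩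
  have hFm : Measurable F := by rw [hF]; fun_prop
  have hGm : Measurable Gf := by rw [hG]; fun_prop
  have hΨm : Measurable Ψ := by rw [hΨ]; fun_prop
  have hF0 : ∀ v : ℝ, 0 < v → 0 < F v := by
    intro v hv
    rw [hF]
    exact mul_pos (Real.rpow_pos_of_pos (hw0 v hv) _) (Real.rpow_pos_of_pos hv _)
  have hG0 : ∀ v : ℝ, 0 < v → 0 < Gf v := by
    intro v hv
    rw [hG]
    exact mul_pos (Real.rpow_pos_of_pos (hw0 v hv) _) (Real.rpow_pos_of_pos hv _)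
  have hFG : ∀ v : ℝ, 0 < v → F v * Gf v = w v := by
    intro v hv
    rw [hF, hG]
    simp only
    have e1 : w v ^ q'⁻¹ * w v ^ q⁻¹ = w v := by
      rw [← Real.rpow_add (hw0 v hv), hinv, Real.rpow_one]
    have e2 : v ^ (-β) * v ^ β = 1 := by
      rw [← Real.rpow_add hv, neg_add_cancel, Real.rpow_zero]
    calc w v ^ q'⁻¹ * v ^ (-β) * (w v ^ q⁻¹ * v ^ β)
        = (w v ^ q'⁻¹ * w v ^ q⁻¹) * (v ^ (-β) * v ^ β) := by ring
      _ = w v := by rw [e1, e2, mul_one]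
  have hFq : ∀ v : ℝ, 0 < v → F v ^ q' =
      (Real.Gamma σ)⁻¹ * (v ^ (σ - β * q' - 1) * Real.exp (-1 * v)) := by
    intro v hv
    rw [hF]
    simp only
    rw [Real.mul_rpow (Real.rpow_nonneg (hw0 v hv).le _) (Real.rpow_nonneg hv.le _),
      ← Real.rpow_mul (hw0 v hv).le, inv_mul_cancel₀ hq'0.ne', Real.rpow_one, ← Real.rpow_mul hv.le,
      hw]
    simp only
    have e2 : v ^ (σ - β * q' - 1) = v ^ (σ - 1) * v ^ (-β * q') := by
      rw [← Real.rpow_add hv]; congr 1; ring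
    rw [e2, neg_one_mul]
    ring
  have hJ1 : ∫⁻ v in Ioi (0 : ℝ), ENNReal.ofReal (F v) ^ q' < ⊤ := by
    have e : ∫⁻ v in Ioi (0 : ℝ), ENNReal.ofReal (F v) ^ q' =
        ∫⁻ v in Ioi (0 : ℝ), ENNReal.ofReal ((Real.Gamma σ)⁻¹) *
          ENNReal.ofReal (v ^ (σ - β * q' - 1) * Real.exp (-1 * v)) := by
      refine setLIntegral_congr_fun measurableSet_Ioi fun v hv => ?_
      have hv : 0 < v := hv
      show ENNReal.ofReal (F v) ^ q' = _
      rw [ENNReal.ofReal_rpow_of_nonneg (hF0 v hv).le hq'0.le, hFq v hv,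
        ENNReal.ofReal_mul (inv_nonneg.2 hΓ.le)]
    rw [e, lintegral_const_mul' _ _ ENNReal.ofReal_ne_top]
    exact ENNReal.mul_lt_top ENNReal.ofReal_lt_top (gam one_pos (by linarith))
  obtain ⟨K', hK'⟩ : ∃ K' : ℝ, K' = (Real.Gamma σ)⁻¹ * c ^ (q / 2) * K * (1 + d) := ⟨_, rfl⟩
  have hK'0 : 0 ≤ K' := by rw [hK']; positivity
  have hGΨ : ∀ v : ℝ, 0 < v → Gf v ^ q * Ψ v ≤
      K' * (v ^ ((σ + β * q - κ) - 1) * Real.exp (-(1 / 2) * v)) +
      K' * (v ^ ((σ + β * q - κ - 1 / 2) - 1) * Real.exp (-(1 / 2) * v)) := by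
    intro v hv
    have e1 : Gf v ^ q = w v * v ^ (β * q) := by
      rw [hG]
      simp only
      rw [Real.mul_rpow (Real.rpow_nonneg (hw0 v hv).le _) (Real.rpow_nonneg hv.le _),
        ← Real.rpow_mul (hw0 v hv).le, inv_mul_cancel₀ hq0.ne', Real.rpow_one,
        ← Real.rpow_mul hv.le]
    have e2 : (c * (1 + v) ^ M) ^ (q / 2) = c ^ (q / 2) * (1 + v) ^ ((M : ℝ) * (q / 2)) := by
      rw [Real.mul_rpow hc.le (by positivity), ← Real.rpow_natCast (1 + v) M,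
        ← Real.rpow_mul (by linarith)]
    have e3 : v ^ (σ - 1) * v ^ (β * q) * v ^ (-κ) = v ^ ((σ + β * q - κ) - 1) := by
      rw [← Real.rpow_add hv, ← Real.rpow_add hv]; congr 1; ring
    have e4 : v ^ ((σ + β * q - κ) - 1) * v ^ (-(1 / 2) : ℝ)
        = v ^ ((σ + β * q - κ - 1 / 2) - 1) := by
      rw [← Real.rpow_add hv]; congr 1; ring
    have r1 := root (d := d) hv
    have r2 := hK v hv
    have p1 : 0 ≤ v ^ ((σ + β * q - κ) - 1) := Real.rpow_nonneg hv.le _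
    have p2 : 0 ≤ (1 + d * v⁻¹) ^ ((1 : ℝ) / 2) := by positivity
    calc Gf v ^ q * Ψ v
        = (Real.Gamma σ)⁻¹ * c ^ (q / 2) * ((1 + v) ^ ((M : ℝ) * (q / 2)) * Real.exp (-v)) *
            (v ^ (σ - 1) * v ^ (β * q) * v ^ (-κ)) * (1 + d * v⁻¹) ^ ((1 : ℝ) / 2) := by
          rw [e1, hΨ, hw]
          simp only
          rw [e2]
          ring
      _ = (Real.Gamma σ)⁻¹ * c ^ (q / 2) * v ^ ((σ + β * q - κ) - 1) *
            (((1 + v) ^ ((M : ℝ) * (q / 2)) * Real.exp (-v)) *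
              (1 + d * v⁻¹) ^ ((1 : ℝ) / 2)) := by
          rw [e3]; ring
      _ ≤ (Real.Gamma σ)⁻¹ * c ^ (q / 2) * v ^ ((σ + β * q - κ) - 1) *
            ((K * Real.exp (-(1 / 2) * v)) * ((1 + d) * (1 + v ^ (-(1 / 2) : ℝ)))) := by
          apply mul_le_mul_of_nonneg_left _ (by positivity)
          exact mul_le_mul r2 r1 p2 (by positivity)
      _ = K' * (v ^ ((σ + β * q - κ) - 1) * Real.exp (-(1 / 2) * v)) +
            K' * ((v ^ ((σ + β * q - κ) - 1) * v ^ (-(1 / 2) : ℝ)) * Real.exp (-(1 / 2) * v)) := by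
          rw [hK']; ring
      _ = _ := by rw [e4]
  have hJ2 : ∫⁻ v in Ioi (0 : ℝ), ENNReal.ofReal (Gf v) ^ q * ENNReal.ofReal (Ψ v) < ⊤ := by
    have e : ∫⁻ v in Ioi (0 : ℝ), ENNReal.ofReal (Gf v) ^ q * ENNReal.ofReal (Ψ v) ≤
        ∫⁻ v in Ioi (0 : ℝ), (ENNReal.ofReal K' *
          ENNReal.ofReal (v ^ ((σ + β * q - κ) - 1) * Real.exp (-(1 / 2) * v)) +
          ENNReal.ofReal K' *
          ENNReal.ofReal (v ^ ((σ + β * q - κ - 1 / 2) - 1) * Real.exp (-(1 / 2) * v))) := by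
      refine setLIntegral_mono' measurableSet_Ioi fun v hv => ?_
      have hv : 0 < v := hv
      have p1 : 0 ≤ v ^ ((σ + β * q - κ) - 1) := Real.rpow_nonneg hv.le _
      have p2 : 0 ≤ v ^ ((σ + β * q - κ - 1 / 2) - 1) := Real.rpow_nonneg hv.le _
      rw [ENNReal.ofReal_rpow_of_nonneg (hG0 v hv).le hq0.le,
        ← ENNReal.ofReal_mul (Real.rpow_nonneg (hG0 v hv).le _), ← ENNReal.ofReal_mul hK'0,
        ← ENNReal.ofReal_mul hK'0, ← ENNReal.ofReal_add (by positivity) (by positivity)]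
      exact ENNReal.ofReal_le_ofReal (hGΨ v hv)
    refine e.trans_lt ?_
    rw [lintegral_add_left (by fun_prop), lintegral_const_mul' _ _ ENNReal.ofReal_ne_top,
      lintegral_const_mul' _ _ ENNReal.ofReal_ne_top]
    exact ENNReal.add_lt_top.2
      ⟨ENNReal.mul_lt_top ENNReal.ofReal_lt_top (gam (by norm_num) (by linarith)),
        ENNReal.mul_lt_top ENNReal.ofReal_lt_top (gam (by norm_num) (by linarith))⟩
  obtain ⟨J1, hJ1e⟩ : ∃ J1 : ℝ≥0∞, J1 = ∫⁻ v in Ioi (0 : ℝ), ENNReal.ofReal (F v) ^ q' := ⟨_, rfl⟩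
  obtain ⟨J2, hJ2e⟩ : ∃ J2 : ℝ≥0∞,
    J2 = ∫⁻ v in Ioi (0 : ℝ), ENNReal.ofReal (Gf v) ^ q * ENNReal.ofReal (Ψ v) := ⟨_, rfl⟩
  rw [← hJ1e] at hJ1
  rw [← hJ2e] at hJ2
  have hfin : (J1 ^ (1 / q' * q) * J2) ≠ ⊤ :=
    (ENNReal.mul_lt_top (ENNReal.rpow_lt_top_of_nonneg (by positivity) hJ1.ne) hJ2).ne
  refine ⟨(J1 ^ (1 / q' * q) * J2).toReal + 1, by positivity, ?_⟩
  intro X _ b P hbm hb
  have hone : ∀ ε, (∫⁻ v in Ioi (0 : ℝ),
      ENNReal.ofReal (Real.exp (-v) * v ^ (σ - 1) / Real.Gamma σ) * b ε v) ^ q ≤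
      J1 ^ (1 / q' * q) * ∫⁻ v in Ioi (0 : ℝ), ENNReal.ofReal (Gf v) ^ q * b ε v ^ q := by
    intro ε
    have e1 : ∫⁻ v in Ioi (0 : ℝ),
        ENNReal.ofReal (Real.exp (-v) * v ^ (σ - 1) / Real.Gamma σ) * b ε v =
        ∫⁻ v in Ioi (0 : ℝ), ((fun v => ENNReal.ofReal (F v)) *
          (fun v => ENNReal.ofReal (Gf v) * b ε v)) v := by
      refine setLIntegral_congr_fun measurableSet_Ioi fun v hv => ?_
      have hv : 0 < v := hv
      show _ = ENNReal.ofReal (F v) * (ENNReal.ofReal (Gf v) * b ε v)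
      rw [← mul_assoc, ← ENNReal.ofReal_mul (hF0 v hv).le, hFG v hv, hw]
    have h2 := ENNReal.lintegral_mul_le_Lp_mul_Lq (volume.restrict (Ioi (0 : ℝ))) hconj
      (f := fun v => ENNReal.ofReal (F v)) (g := fun v => ENNReal.ofReal (Gf v) * b ε v)
      (hFm.ennreal_ofReal.aemeasurable) ((hGm.ennreal_ofReal.aemeasurable).mul (hbm ε))
    rw [e1]
    refine (ENNReal.rpow_le_rpow h2 hq0.le).trans ?_
    rw [ENNReal.mul_rpow_of_nonneg _ _ hq0.le, ← ENNReal.rpow_mul, ← ENNReal.rpow_mul,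
      one_div_mul_cancel hq0.ne', ENNReal.rpow_one, ← hJ1e]
    refine mul_le_mul_right ?_ _
    refine le_of_eq (lintegral_congr fun v => ?_)
    rw [ENNReal.mul_rpow_of_nonneg _ _ hq0.le]
  calc ∑ ε, (∫⁻ v in Ioi (0 : ℝ),
        ENNReal.ofReal (Real.exp (-v) * v ^ (σ - 1) / Real.Gamma σ) * b ε v) ^ q
      ≤ ∑ ε, J1 ^ (1 / q' * q) *
          ∫⁻ v in Ioi (0 : ℝ), ENNReal.ofReal (Gf v) ^ q * b ε v ^ q :=
        Finset.sum_le_sum fun ε _ => hone ε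
    _ = J1 ^ (1 / q' * q) *
          ∫⁻ v in Ioi (0 : ℝ), ∑ ε, ENNReal.ofReal (Gf v) ^ q * b ε v ^ q := by
        rw [← Finset.mul_sum, lintegral_finsetSum']
        intro ε _
        exact (hGm.ennreal_ofReal.pow_const q).aemeasurable.mul ((hbm ε).pow_const q)
    _ ≤ J1 ^ (1 / q' * q) *
          ∫⁻ v in Ioi (0 : ℝ), P * (ENNReal.ofReal (Gf v) ^ q * ENNReal.ofReal (Ψ v)) := by
        refine mul_le_mul_right ?_ _
        refine setLIntegral_mono' measurableSet_Ioi fun v hv => ?_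
        have hv : 0 < v := hv
        rw [← Finset.mul_sum]
        refine (mul_le_mul_right (hb v hv) _).trans (le_of_eq ?_)
        rw [hΨ]
        ring
    _ = (J1 ^ (1 / q' * q) * J2) * P := by
        rw [lintegral_const_mul _ (by fun_prop), ← hJ2e]
        ring
    _ ≤ ENNReal.ofReal ((J1 ^ (1 / q' * q) * J2).toReal + 1) * P := by
        refine mul_le_mul_left ?_ _
        refine (ENNReal.ofReal_toReal hfin).symm.le.trans (ENNReal.ofReal_le_ofReal ?_)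
        linarith

lemma comb {q a e : ℝ} (hq : 2 ≤ q) (ha : 0 ≤ a) (he : 0 ≤ e) {N X Y : ℝ≥0∞}
    (hX : X ≤ ENNReal.ofReal a * N) (hY : Y ≤ ENNReal.ofReal (a * e) * N) :
    X ^ ((q - 1) / 2) * Y ^ ((1 : ℝ) / 2) ≤
      ENNReal.ofReal (a ^ (q / 2) * e ^ ((1 : ℝ) / 2)) * N ^ (q / 2) := by
  have h1 : 0 ≤ (q - 1) / 2 := by linarith
  have h2 : (0 : ℝ) ≤ 1 / 2 := by norm_num
  calc X ^ ((q - 1) / 2) * Y ^ ((1 : ℝ) / 2)
      ≤ (ENNReal.ofReal a * N) ^ ((q - 1) / 2) * (ENNReal.ofReal (a * e) * N) ^ ((1 : ℝ) / 2) :=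
        mul_le_mul' (ENNReal.rpow_le_rpow hX h1) (ENNReal.rpow_le_rpow hY h2)
    _ = (ENNReal.ofReal a ^ ((q - 1) / 2) * ENNReal.ofReal (a * e) ^ ((1 : ℝ) / 2)) *
          (N ^ ((q - 1) / 2) * N ^ ((1 : ℝ) / 2)) := by
        rw [ENNReal.mul_rpow_of_nonneg _ _ h1, ENNReal.mul_rpow_of_nonneg _ _ h2]
        ring
    _ = _ := by
        rw [← ENNReal.rpow_add_of_nonneg _ _ h1 h2, ENNReal.ofReal_rpow_of_nonneg ha h1,
          ENNReal.ofReal_rpow_of_nonneg (mul_nonneg ha he) h2,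
          ← ENNReal.ofReal_mul (Real.rpow_nonneg ha _), Real.mul_rpow ha he, ← mul_assoc,
          ← Real.rpow_add_of_nonneg ha h1 h2]
        have : (q - 1) / 2 + 1 / 2 = q / 2 := by ring
        rw [this]

lemma ysum {a b : ℝ} (ha : 0 ≤ a) (hb : 0 ≤ b) {d : ℕ} {N X : ℝ≥0∞} {Y : Fin d → ℝ≥0∞}
    (hX : X ≤ ENNReal.ofReal a * N) (hY : ∀ j, Y j ≤ ENNReal.ofReal b * N) :
    X + ∑ j, Y j ≤ ENNReal.ofReal (a + d * b) * N := by
  calc X + ∑ j, Y j ≤ ENNReal.ofReal a * N + ∑ _j : Fin d, ENNReal.ofReal b * N :=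
        add_le_add hX (Finset.sum_le_sum fun j _ => hY j)
    _ = _ := by
        rw [Finset.sum_const, Finset.card_univ, Fintype.card_fin, nsmul_eq_mul,
          ENNReal.ofReal_add ha (mul_nonneg (Nat.cast_nonneg d) hb),
          ENNReal.ofReal_mul (Nat.cast_nonneg d), ENNReal.ofReal_natCast]
        ring

end Pool.Agent.N322.LS

namespace Pool.Agent.N303.LS

open MeasureTheory
open scoped ENNReal FourierTransform SchwartzMap

/-- (HR) from (MAX), (HN) and (HRR) -/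
theorem t_hrh (h1 : S_MAX) (h2 : S_HN) (h3 : S_HRR) : Pool.Agent.N303.LS.S_HR := by
  intro d M hd hdM s q hs hq hsq K hK
  obtain ⟨C1, hC1, hmax⟩ := h1 d M hd hdM q hq K hK
  obtain ⟨C2, hC2, hhn⟩ := h2 d M
  obtain ⟨D1, hD1, k1⟩ := Pool.Agent.N322.LS.key d M q (s / 2) 0 C2 hq (by linarith)
    (by linarith) hC2
  obtain ⟨D2, hD2, k2⟩ := Pool.Agent.N322.LS.key d M q ((1 + s) / 2) (q / 2) C2 hq (by linarith)
    (by linarith) hC2
  refine ⟨C1 * (D1 + D2), by positivity, ?_⟩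
  intro ι _ _ A V hdis hV k g G hg x
  obtain ⟨h, hh⟩ := Pool.Agent.N322.LS.heat G
  have hfin : ∀ D : ℝ, 0 < D → D ≤ D1 + D2 →
      ENNReal.ofReal D * (ENNReal.ofReal (C1 * 2 ^ Fintype.card ι * (V : ℝ) ^ (q / 2)) *
        nrg M G x ^ (q / 2)) ≤
      ENNReal.ofReal (C1 * (D1 + D2) * 2 ^ Fintype.card ι * (V : ℝ) ^ (q / 2)) *
        nrg M G x ^ (q / 2) := by
    intro D hD0 hD
    rw [← mul_assoc, ← ENNReal.ofReal_mul hD0.le]
    refine mul_le_mul_left (ENNReal.ofReal_le_ofReal ?_) _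
    have hV0 : 0 ≤ C1 * 2 ^ Fintype.card ι * (V : ℝ) ^ (q / 2) := by positivity
    calc D * (C1 * 2 ^ Fintype.card ι * (V : ℝ) ^ (q / 2))
        ≤ (D1 + D2) * (C1 * 2 ^ Fintype.card ι * (V : ℝ) ^ (q / 2)) :=
          mul_le_mul_of_nonneg_right hD hV0
      _ = _ := by ring
  rcases hg with hg | ⟨j, hg⟩
  · have hr := fun ε => (h3 d hd s hs K hK ι A k g G h hh ε x).1 hg
    refine le_trans ?_ (hfin D1 hD1 (by linarith))
    refine (Finset.sum_le_sum fun ε _ => ENNReal.rpow_le_rpow (hr ε).2 (by linarith)).trans ?_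
    refine k1 (ι → Bool) (fun ε v => sp K A k (h v) ε x) _ (fun ε => (hr ε).1) fun v hv => ?_
    refine (hmax ι A V hdis hV k (h v) x).trans ?_
    obtain ⟨n1, n2, n3⟩ := hhn G (h v) v hv (hh v hv) x
    have ha : 0 ≤ C2 * (1 + v) ^ M := by positivity
    have hY : nrg M (h v) x + ∑ j, nrg M (dj j (h v)) x ≤
        ENNReal.ofReal ((C2 * (1 + v) ^ M) * (1 + d * v⁻¹)) * nrg M G x := by
      refine (Pool.Agent.N322.LS.ysum ha (by positivity) n1 n2).trans (le_of_eq ?_)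
      congr 2
      ring
    have hc := Pool.Agent.N322.LS.comb hq ha (by positivity) n1 hY
    refine (mul_le_mul_right hc _).trans (le_of_eq ?_)
    rw [neg_zero, Real.rpow_zero, mul_one]
    ring
  · have hr := fun ε => (h3 d hd s hs K hK ι A k g G h hh ε x).2 j hg
    refine le_trans ?_ (hfin D2 hD2 (by linarith))
    refine (Finset.sum_le_sum fun ε _ => ENNReal.rpow_le_rpow (hr ε).2 (by linarith)).trans ?_
    refine k2 (ι → Bool) (fun ε v => sp K A k (dj j (h v)) ε x) _ (fun ε => (hr ε).1)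
      fun v hv => ?_
    refine (hmax ι A V hdis hV k (dj j (h v)) x).trans ?_
    obtain ⟨n1, n2, n3⟩ := hhn G (h v) v hv (hh v hv) x
    have ha : 0 ≤ C2 * (1 + v) ^ M * v⁻¹ := by positivity
    have hY : nrg M (dj j (h v)) x + ∑ i, nrg M (dj i (dj j (h v))) x ≤
        ENNReal.ofReal ((C2 * (1 + v) ^ M * v⁻¹) * (1 + d * v⁻¹)) * nrg M G x := by
      refine (Pool.Agent.N322.LS.ysum ha (by positivity) (n2 j) (fun i => n3 i j)).trans
        (le_of_eq ?_)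
      congr 2
      rw [sq, mul_inv]
      ring
    have hc := Pool.Agent.N322.LS.comb hq ha (by positivity) (n2 j) hY
    refine (mul_le_mul_right hc _).trans (le_of_eq ?_)
    have e1 : (C2 * (1 + v) ^ M * v⁻¹) ^ (q / 2) * (1 + (d : ℝ) * v⁻¹) ^ ((1 : ℝ) / 2) =
        (C2 * (1 + v) ^ M) ^ (q / 2) * (1 + (d : ℝ) * v⁻¹) ^ ((1 : ℝ) / 2) * v ^ (-(q / 2)) := by
      rw [Real.mul_rpow (by positivity) (by positivity), Real.inv_rpow hv.le,
        ← Real.rpow_neg hv.le]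
      ring
    rw [e1]
    ring

end Pool.Agent.N303.LS
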